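import Pool.Agent.MTS.F

/-!
# MP_c45d35_ag : the Moore–Tachikawa conjecture

For every connected semisimple complex affine algebraic group `G` there is a two-dimensional
topological quantum field theory with values in the category `MT` of Hamiltonian spaces that sends
the circle to `G` and the disc to `G × S`, `S = e + 𝔤_f` the principal slice.
-/

namespace Pool.Agent.Results.MP_c45d35_ag.MooreTachikawa

open Pool.Agent.MTS

/-- `G` is connected (its algebra of regular functions is a domain) and semisimple (its Killing form
is nondegenerate). -/
theorem result (G : AffGrp) (hd : IsDomain G.O)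
    (hk : ∀ D : Lie G, (∀ E : Lie G, killing D E = 0) → D = 0) :
    (∃ e h f : Lie G, Principal e h f) ∧ ∀ e h f : Lie G, Principal e h f → MTTQFT e f :=
  ⟨exists_princ G hd hk, fun _ _ _ hp => mttqft_new G hd hk hp⟩

end Pool.Agent.Results.MP_c45d35_ag.MooreTachikawa
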